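import Mathlib
import Pool.Agent.Lib.MP_aa3337_co.Main

set_option autoImplicit false

namespace Pool.Agent.Results.MP_aa3337_co.LinearSaving

open Pool.Agent.Lib.MP_aa3337_co

theorem det_eq_zero_of_cross {V : Type*} {u v : V → ℝ} {i j b : V} (h : Cross u v i j i b) :
    det u v i j b = 0 := by
  obtain ⟨s, t, s', t', h1, h2, h3, h4, h5, h6, h7, h8⟩ := h
  have e1 : s = 1 - t := by linarith
  have e2 : s' = 1 - t' := by linarith
  subst e1 e2
  have key : t' * det u v i j b = 0 := by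
    unfold det
    linear_combination (v j - v i) * h7 - (u j - u i) * h8
  exact (mul_eq_zero.1 key).resolve_left h5.ne'

theorem collinear_of_det' {a b c : EuclideanSpace ℝ (Fin 2)} (hab : a ≠ b)
    (h : (b 0 - a 0) * (c 1 - a 1) - (b 1 - a 1) * (c 0 - a 0) = 0) :
    Collinear ℝ ({a, b, c} : Set (EuclideanSpace ℝ (Fin 2))) := by
  have hext : ∀ x y : EuclideanSpace ℝ (Fin 2), x 0 = y 0 → x 1 = y 1 → x = y := by
    intro x y h0 h1
    ext i
    fin_cases i
    · exact h0
    · exact h1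
  rw [collinear_iff_of_mem (p₀ := a) (by simp)]
  refine ⟨b - a, ?_⟩
  intro q hq
  simp only [Set.mem_insert_iff, Set.mem_singleton_iff] at hq
  rcases hq with rfl | rfl | rfl
  · exact ⟨0, by simp⟩
  · exact ⟨1, by simp⟩
  · by_cases h1 : b 0 - a 0 = 0
    · have h2 : b 1 - a 1 ≠ 0 := by
        intro h2
        exact hab (hext _ _ (by linarith) (by linarith))
      refine ⟨(q 1 - a 1) / (b 1 - a 1), hext _ _ ?_ ?_⟩
      · simp only [vadd_eq_add, PiLp.add_apply, PiLp.smul_apply, PiLp.sub_apply, smul_eq_mul]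
        field_simp
        linarith
      · simp only [vadd_eq_add, PiLp.add_apply, PiLp.smul_apply, PiLp.sub_apply, smul_eq_mul]
        field_simp
        ring
    · refine ⟨(q 0 - a 0) / (b 0 - a 0), hext _ _ ?_ ?_⟩
      · simp only [vadd_eq_add, PiLp.add_apply, PiLp.smul_apply, PiLp.sub_apply, smul_eq_mul]
        field_simp
        ring
      · simp only [vadd_eq_add, PiLp.add_apply, PiLp.smul_apply, PiLp.sub_apply, smul_eq_mul]
        field_simp
        linarith

/-- The edges of every complete geometric graph on `n` points of the plane in general position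
can be coloured with at most `(1 - 1/2048) n` colours so that crossing edges differ. -/
theorem result (P : Finset (EuclideanSpace ℝ (Fin 2)))
    (hP : ∀ a ∈ P, ∀ b ∈ P, ∀ c ∈ P, a ≠ b → b ≠ c → a ≠ c →
      ¬ Collinear ℝ ({a, b, c} : Set (EuclideanSpace ℝ (Fin 2)))) :
    ∃ k : ℕ, (k : ℝ) ≤ (1 - 1 / 2048) * (P.card : ℝ) ∧
      ∃ col : Sym2 (EuclideanSpace ℝ (Fin 2)) → ℕ,
        (∀ a ∈ P, ∀ b ∈ P, a ≠ b → col s(a, b) < k) ∧
        ∀ a ∈ P, ∀ b ∈ P, ∀ x ∈ P, ∀ y ∈ P, a ≠ b → x ≠ y → s(a, b) ≠ s(x, y) →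
          (openSegment ℝ a b ∩ openSegment ℝ x y).Nonempty → col s(a, b) ≠ col s(x, y) := by
  classical
  have hinj : Function.Injective fun i : P => ((i.1 0, i.1 1) : ℝ × ℝ) := by
    intro i j h
    simp only [Prod.mk.injEq] at h
    apply Subtype.ext
    ext l
    fin_cases l
    · exact h.1
    · exact h.2
  obtain ⟨t, ht⟩ := exists_shear _ hinj
  simp only at ht
  have hgp : ∀ a b c : P, a ≠ b → b ≠ c → a ≠ c →
      det (fun i : P => i.1 0 + t * i.1 1) (fun i : P => i.1 1) a b c ≠ 0 := by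
    intro a b c hab hbc hac h0
    apply hP a.1 a.2 b.1 b.2 c.1 c.2 (fun h => hab (Subtype.ext h))
      (fun h => hbc (Subtype.ext h)) (fun h => hac (Subtype.ext h))
    apply collinear_of_det' (fun h => hab (Subtype.ext h))
    unfold det at h0
    linear_combination h0
  obtain ⟨k, hk, hcov⟩ := cov_all hgp ht
  obtain ⟨c, h1, h2, h3⟩ := hcov.colouring
  let f : EuclideanSpace ℝ (Fin 2) → EuclideanSpace ℝ (Fin 2) → ℕ := fun a b =>
    if h : a ∈ P ∧ b ∈ P then c ⟨a, h.1⟩ ⟨b, h.2⟩ else 0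
  have hf : ∀ a b, f a b = f b a := by
    intro a b
    by_cases h : a ∈ P ∧ b ∈ P
    · simp only [f, dif_pos h, dif_pos h.symm]
      exact h1 _ _
    · have h' : ¬ (b ∈ P ∧ a ∈ P) := fun h' => h h'.symm
      simp only [f, dif_neg h, dif_neg h']
  have hfv : ∀ a (ha : a ∈ P) b (hb : b ∈ P), f a b = c ⟨a, ha⟩ ⟨b, hb⟩ := by
    intro a ha b hb
    simp only [f, dif_pos (And.intro ha hb)]
  refine ⟨k, ?_, Sym2.lift ⟨f, hf⟩, ?_, ?_⟩
  · rw [Fintype.card_coe] at hk
    have hk' : (2048 : ℝ) * k ≤ 2047 * P.card := by exact_mod_cast hk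
    linarith
  · intro a ha b hb hab
    rw [Sym2.lift_mk]
    simp only
    rw [hfv a ha b hb]
    exact h2 _ _ (fun h => hab (congrArg Subtype.val h))
  · intro a ha b hb x hx y hy hab hxy hne hcr
    rw [Sym2.lift_mk, Sym2.lift_mk]
    simp only
    rw [hfv a ha b hb, hfv x hx y hy]
    have hX : Cross (fun i : P => i.1 0 + t * i.1 1) (fun i : P => i.1 1)
        ⟨a, ha⟩ ⟨b, hb⟩ ⟨x, hx⟩ ⟨y, hy⟩ := by
      obtain ⟨z, ⟨s, r, hs, hr, hsr, hz⟩, ⟨s', r', hs', hr', hsr', hz'⟩⟩ := hcr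
      have e := hz.trans hz'.symm
      have e1 := congrArg (fun w : EuclideanSpace ℝ (Fin 2) => w 0) e
      have e2 := congrArg (fun w : EuclideanSpace ℝ (Fin 2) => w 1) e
      simp only [PiLp.add_apply, PiLp.smul_apply, smul_eq_mul] at e1 e2
      refine ⟨s, r, s', r', hs, hr, hsr, hs', hr', hsr', ?_, e2⟩
      linear_combination e1 + t * e2
    have ne' : ∀ {p q : EuclideanSpace ℝ (Fin 2)} (hp : p ∈ P) (hq : q ∈ P), p ≠ q →
        (⟨p, hp⟩ : P) ≠ ⟨q, hq⟩ := fun hp hq h h' => h (congrArg Subtype.val h')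
    have hax : a ≠ x := by
      rintro rfl
      have hby : b ≠ y := by
        rintro rfl
        exact hne rfl
      exact hgp _ _ _ (ne' ha hb hab) (ne' hb hy hby) (ne' ha hy hxy) (det_eq_zero_of_cross hX)
    have hay : a ≠ y := by
      rintro rfl
      have hbx : b ≠ x := by
        rintro rfl
        exact hne Sym2.eq_swap
      exact hgp _ _ _ (ne' ha hb hab) (ne' hb hx hbx) (ne' ha hx hax)
        (det_eq_zero_of_cross hX.symm_right)
    have hbx : b ≠ x := by
      rintro rfl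
      exact hgp _ _ _ (ne' hb ha hab.symm) (ne' ha hy hay) (ne' hb hy hxy)
        (det_eq_zero_of_cross hX.symm_left)
    have hby : b ≠ y := by
      rintro rfl
      exact hgp _ _ _ (ne' hb ha hab.symm) (ne' ha hx hax) (ne' hb hx hbx)
        (det_eq_zero_of_cross hX.symm_left.symm_right)
    exact h3 _ _ _ _ (ne' ha hb hab) (ne' ha hx hax) (ne' ha hy hay) (ne' hb hx hbx)
      (ne' hb hy hby) (ne' hx hy hxy) hX

end Pool.Agent.Results.MP_aa3337_co.LinearSaving
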