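import Mathlib
import Pool.Agent.Lib.MP_aa3337_co.LBCross

set_option autoImplicit false

namespace Pool.Agent.Results.MP_aa3337_co.LowerBound

open Pool.Agent.Lib.MP_aa3337_co.LB

/-- For every `n` there are `n` points of the plane in general position such that every edge
colouring of the complete geometric graph in which crossing edges differ uses at least
`(1/2 + 1/40000) n - 701` colours. -/
theorem result (n : ℕ) :
    ∃ p : Fin n → ℝ × ℝ,
      Function.Injective p ∧
      (∀ i j l : Fin n, i ≠ j → j ≠ l → i ≠ l →
        ¬ Collinear ℝ ({p i, p j, p l} : Set (ℝ × ℝ))) ∧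
      ∀ (k : ℕ) (c : Fin n → Fin n → ℕ),
        (∀ i j : Fin n, c i j = c j i) →
        (∀ i j : Fin n, i ≠ j → c i j < k) →
        (∀ i j a b : Fin n, i ≠ j → i ≠ a → i ≠ b → j ≠ a → j ≠ b → a ≠ b →
          (openSegment ℝ (p i) (p j) ∩ openSegment ℝ (p a) (p b)).Nonempty →
          c i j ≠ c a b) →
        (1 / 2 + 1 / 40000 : ℝ) * (n : ℝ) - 701 ≤ (k : ℝ) := by
  refine ⟨fun i => pt n (200 * (n / 1401)) (n - n / 1401) i.val, ?_, ?_, ?_⟩
  · intro i j e
    by_contra hne
    exact pt_ne i.2 j.2 (fun t => hne (Fin.ext t)) e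
  · intro i j l hij hjl hil hc
    exact area_ne i.2 j.2 l.2 (fun t => hij (Fin.ext t)) (fun t => hjl (Fin.ext t))
      (fun t => hil (Fin.ext t)) (area_of_collinear hc)
  · intro k c hsym hlt hne
    have P : Proper n (200 * (n / 1401)) (n - n / 1401) k
        (fun i j => if t : i < n ∧ j < n then c ⟨i, t.1⟩ ⟨j, t.2⟩ else 0) := by
      constructor
      · intro i j
        by_cases t : i < n ∧ j < n
        · rw [dif_pos t, dif_pos t.symm, hsym]
        · rw [dif_neg t, dif_neg (fun u => t u.symm)]
      · intro i j hi hj hij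
        rw [dif_pos ⟨hi, hj⟩]
        exact hlt _ _ (fun t => hij (congrArg Fin.val t))
      · intro i j a b hi hj ha hb h1 h2
        rw [dif_pos ⟨hi, hj⟩, dif_pos ⟨ha, hb⟩]
        apply hne _ _ _ _ _ _ _ _ _ _ (meet_of_area h1 h2)
        all_goals
          intro t
          have t' := congrArg Fin.val t
          simp only at t'
          subst t'
        · simp [area] at h1
        · simp [area, mul_comm] at h1
        · simp [area, mul_comm] at h1
        · simp [area, mul_comm] at h1
        · simp [area, mul_comm] at h1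
        · simp [area] at h2
    have hk : 700536 * (n / 1401) ≤ 1000 * k := by
      rcases Nat.eq_zero_or_pos (n / 1401) with h0 | h0
      · omega
      · exact (count_main (hyp_of_proper P (by omega) (by omega)) h0).le
    have h2 : 20001 * n ≤ 40000 * k + 28040000 := by omega
    have h3 : (20001 : ℝ) * n ≤ 40000 * k + 28040000 := by exact_mod_cast h2
    linarith

end Pool.Agent.Results.MP_aa3337_co.LowerBound
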